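import Pool.Agent.OPG.Stmts

/-!
# Squad OPG, row CHG
-/

set_option autoImplicit false

namespace Pool.Agent.OPG.H68

open Finset Pool.Agent.OPG

theorem units_or (x y e : ℤˣ) (h : x ≠ y) : x = e ∨ y = e := by
  rcases Int.units_eq_one_or x with hx | hx <;> rcases Int.units_eq_one_or y with hy | hy <;>
    rcases Int.units_eq_one_or e with he | he <;> subst hx <;> subst hy <;> subst he <;> simp_all

theorem chg : ChgStmt := by
  classical
  intro f e M a b hf
  have hsub : CH f a b ⊆ CU M a b ∪ (NS f e M).biUnion fun n =>
      n.divisors ∪ n.divisors.image fun d => d - 2 := by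
    intro u hu
    unfold CH at hu
    rw [mem_filter] at hu
    obtain ⟨hab, hodd, hne⟩ := hu
    rw [mem_union]
    by_cases hcut : Cut M u
    · left
      unfold CU
      rw [mem_filter]
      exact ⟨hab, hodd, hcut⟩
    · right
      unfold Cut at hcut
      push Not at hcut
      obtain ⟨v, hv, h1, h2⟩ := hcut
      have hodd2 : Odd (u + 2) := by
        obtain ⟨w, rfl⟩ := hodd
        exact ⟨w + 1, by ring⟩
      have h3 : f (u * v) = f u * f v := hf u v hodd hv
      have h4 : f ((u + 2) * v) = f (u + 2) * f v := hf (u + 2) v hodd2 hv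
      have h5 : f (u * v) ≠ f ((u + 2) * v) := by
        rw [h3, h4]
        intro h
        exact hne (mul_right_cancel h)
      have h6 : u * v ≤ (u + 2) * v := Nat.mul_le_mul_right v (by omega)
      have ho1 : Odd (u * v) := hodd.mul hv
      have ho2 : Odd ((u + 2) * v) := hodd2.mul hv
      rw [mem_biUnion]
      rcases units_or _ _ e h5 with h | h
      · refine ⟨u * v, ?_, ?_⟩
        · unfold NS
          rw [mem_filter, mem_Ioo]
          exact ⟨⟨h1, lt_of_le_of_lt h6 h2⟩, ho1, h⟩
        · rw [mem_union]
          left
          rw [Nat.mem_divisors]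
          exact ⟨dvd_mul_right u v, fun h0 => by rw [h0] at ho1; exact absurd ho1 (by decide)⟩
      · refine ⟨(u + 2) * v, ?_, ?_⟩
        · unfold NS
          rw [mem_filter, mem_Ioo]
          exact ⟨⟨lt_of_lt_of_le h1 h6, h2⟩, ho2, h⟩
        · rw [mem_union]
          right
          rw [mem_image]
          refine ⟨u + 2, ?_, by omega⟩
          rw [Nat.mem_divisors]
          exact ⟨dvd_mul_right (u + 2) v,
            fun h0 => by rw [h0] at ho2; exact absurd ho2 (by decide)⟩
  refine (card_le_card hsub).trans ((card_union_le _ _).trans ?_)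
  apply Nat.add_le_add_left
  refine card_biUnion_le.trans ?_
  unfold DS
  rw [mul_sum]
  apply sum_le_sum
  intro n _
  refine (card_union_le _ _).trans ?_
  have := card_image_le (s := n.divisors) (f := fun d => d - 2)
  omega

end Pool.Agent.OPG.H68
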