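import Pool.Agent.OPG.Stmts

/-!
# Squad OPG, row MAI
-/

set_option autoImplicit false

namespace Pool.Agent.OPG.H68

open Finset Pool.Agent.OPG

theorem mai (hchg : ChgStmt) (hct3 : Ct3Stmt) (hpat : PatStmt) : MaiStmt := by
  intro R n1 hR hn1
  obtain ⟨C, hC, hP⟩ := hpat R n1 hR hn1
  refine ⟨1200 * C, by omega, ?_⟩
  intro P M f e hCP hPodd hM hM1 hM2 hf hfn
  have hP1 : 1200 ≤ P := by nlinarith
  have hP0 : 0 < P := by omega
  have hP6 : 0 < P ^ 6 := by positivity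
  set A := M / P ^ 6 with hA
  have hA1 : A * P ^ 6 ≤ M := Nat.div_mul_le_self M (P ^ 6)
  have hA2 : M < (A + 1) * P ^ 6 := by
    have := Nat.lt_div_mul_add (a := M) hP6
    rw [← hA] at this
    linarith
  have hA22 : P ^ 22 ≤ A := by
    rw [hA, Nat.le_div_iff_mul_le hP6, ← pow_add]
    exact (Nat.pow_le_pow_right hP0 (by omega)).trans hM1
  have hA100 : 100 ≤ A := by
    have h1 : P ^ 1 ≤ P ^ 22 := Nat.pow_le_pow_right hP0 (by omega)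
    rw [pow_one] at h1
    omega
  have h10 : 10 ≤ P ^ 3 := by
    have h1 : P ^ 1 ≤ P ^ 3 := Nat.pow_le_pow_right hP0 (by omega)
    rw [pow_one] at h1
    omega
  have hs : (P ^ 3) ^ 2 = P ^ 6 := by rw [← pow_mul]
  have h1 := hP P M A f (by nlinarith) hPodd hM1 hM2 hA1 hA2 hf hfn
  have h2 := hchg f e M (M + A) (M + 2 * A) hf
  have h3 := hct3 M A (P ^ 3) hM hA100 h10 (by rw [hs]; exact hA1) (by rw [hs]; exact hA2)
  -- real numbers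
  have hPr : (0 : ℝ) < P := by exact_mod_cast hP0
  have hCr : (1 : ℝ) ≤ C := by exact_mod_cast hC
  have hCPr : 1200 * (C : ℝ) ≤ P := by exact_mod_cast hCP
  have hAr : (P : ℝ) ^ 22 ≤ A := by exact_mod_cast hA22
  have h1r : (A : ℝ) ≤ C * (P : ℝ) ^ 8 * ((CH f (M + A) (M + 2 * A)).card : ℝ) := by
    exact_mod_cast h1
  have h2r : ((CH f (M + A) (M + 2 * A)).card : ℝ) ≤ ((CU M (M + A) (M + 2 * A)).card : ℝ) +
      2 * (DS f e M : ℝ) := by exact_mod_cast h2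
  push_cast at h3
  set D : ℝ := (DS f e M : ℝ) with hD
  have hD0 : 0 ≤ D := by positivity
  have hA0 : (0 : ℝ) ≤ A := by positivity
  have h4 : (A : ℝ) ≤ C * (P : ℝ) ^ 8 * (1 + ((P : ℝ) ^ 3) ^ 4 + 280 * A / ((P : ℝ) ^ 3) ^ 3 +
      2 * D) := by
    refine h1r.trans (mul_le_mul_of_nonneg_left ?_ (by positivity))
    linarith
  have h5 : C * (P : ℝ) ^ 8 * (280 * A / ((P : ℝ) ^ 3) ^ 3) ≤ A / 4 := by
    have h6 : C * (P : ℝ) ^ 8 * (280 * A / ((P : ℝ) ^ 3) ^ 3) = 280 * C * A / P := by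
      field_simp
    rw [h6, div_le_div_iff₀ hPr (by norm_num)]
    nlinarith [mul_le_mul_of_nonneg_right hCPr hA0]
  have h7 : C * (P : ℝ) ^ 8 * (1 + ((P : ℝ) ^ 3) ^ 4) ≤ A / 4 := by
    have hP1r : (1 : ℝ) ≤ P := by linarith
    have h8 : (1 : ℝ) ≤ ((P : ℝ) ^ 3) ^ 4 := one_le_pow₀ (one_le_pow₀ hP1r)
    have h9 : C * (P : ℝ) ^ 8 * (1 + ((P : ℝ) ^ 3) ^ 4) ≤
        C * (P : ℝ) ^ 8 * (2 * ((P : ℝ) ^ 3) ^ 4) :=
      mul_le_mul_of_nonneg_left (by linarith) (by positivity)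
    have h10 : C * (P : ℝ) ^ 8 * (2 * ((P : ℝ) ^ 3) ^ 4) = 2 * C * (P : ℝ) ^ 20 := by ring
    have h11 : 8 * (C : ℝ) * (P : ℝ) ^ 20 ≤ (P : ℝ) ^ 22 := by
      have h12 : (P : ℝ) ^ 22 = P ^ 2 * (P : ℝ) ^ 20 := by ring
      rw [h12]
      apply mul_le_mul_of_nonneg_right _ (by positivity)
      nlinarith
    linarith
  have h13 : (A : ℝ) ≤ 4 * C * (P : ℝ) ^ 8 * D := by
    have h14 : C * (P : ℝ) ^ 8 * (1 + ((P : ℝ) ^ 3) ^ 4 + 280 * A / ((P : ℝ) ^ 3) ^ 3 + 2 * D) =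
        C * (P : ℝ) ^ 8 * (1 + ((P : ℝ) ^ 3) ^ 4) +
        C * (P : ℝ) ^ 8 * (280 * A / ((P : ℝ) ^ 3) ^ 3) + 2 * C * (P : ℝ) ^ 8 * D := by ring
    rw [h14] at h4
    linarith
  have hA1r : (1 : ℝ) ≤ A := by
    have : 1 ≤ A := by omega
    exact_mod_cast this
  have h15 : (M : ℝ) ≤ (1200 * C : ℝ) * (P : ℝ) ^ 14 * D := by
    have h16 : (M : ℝ) ≤ (A + 1) * (P : ℝ) ^ 6 := by exact_mod_cast hA2.le
    calc (M : ℝ) ≤ (A + 1) * (P : ℝ) ^ 6 := h16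
      _ ≤ (2 * A) * (P : ℝ) ^ 6 := mul_le_mul_of_nonneg_right (by linarith) (by positivity)
      _ ≤ (2 * (4 * C * (P : ℝ) ^ 8 * D)) * (P : ℝ) ^ 6 :=
          mul_le_mul_of_nonneg_right (by linarith) (by positivity)
      _ = 8 * (C * (P : ℝ) ^ 14 * D) := by ring
      _ ≤ 1200 * (C * (P : ℝ) ^ 14 * D) := by
          have : 0 ≤ C * (P : ℝ) ^ 14 * D := by positivity
          linarith
      _ = (1200 * C : ℝ) * (P : ℝ) ^ 14 * D := by ring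
  rw [hD] at h15
  exact_mod_cast h15

end Pool.Agent.OPG.H68
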